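import Pool.Agent.Helper6.HG.Defs

/-!
# TK: Tate classes are killed by the Lie algebra of the `l`-adic monodromy group
-/

set_option autoImplicit false

open NumberField MU MT HD MvPolynomial

namespace HG

section

variable {K₀ : Type} [Field K₀] {n : ℕ}

theorem tk_der_prod {R A : Type*} [CommRing R] [CommRing A] [Algebra R A] {ι : Type*}
    [DecidableEq ι] (D : Derivation R A A) (S : Finset ι) (f : ι → A) :
    D (∏ s ∈ S, f s) = ∑ s ∈ S, (∏ b ∈ S.erase s, f b) * D (f s) := by
  induction S using Finset.induction_on with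
  | empty => simp
  | insert x S hx ih =>
    rw [Finset.prod_insert hx, Derivation.leibniz, ih, Finset.sum_insert hx,
      Finset.erase_insert hx, smul_eq_mul, smul_eq_mul, Finset.mul_sum, add_comm]
    congr 1
    refine Finset.sum_congr rfl fun s hs => ?_
    have hxs : x ≠ s := fun h => hx (h ▸ hs)
    rw [Finset.erase_insert_of_ne hxs, Finset.prod_insert (fun h => hx (Finset.mem_of_mem_erase h))]
    ring

theorem tk_ldv_prod (a : ℕ) (A : Matrix (Fin n) (Fin n) K₀) (i j : Fin a → Fin n) :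
    ev (1 : Matrix (Fin n) (Fin n) K₀) (ldv A (∏ k, X (i k, j k))) = dtp a A i j := by
  rw [tk_der_prod, map_sum]
  unfold dtp
  rw [Matrix.sum_apply]
  refine Finset.sum_congr rfl fun s _ => ?_
  rw [tpf_update, map_mul, ev_ldv_X, map_prod, Matrix.one_mul, mul_comm]
  have h1 : (A.map (algebraMap K₀ K₀)) = A := by
    ext p q
    simp
  rw [h1]
  congr 1
  rw [Finset.erase_eq]
  refine Finset.prod_congr rfl fun r _ => ?_
  rw [ev_X]

theorem tk_ldv_C (A : Matrix (Fin n) (Fin n) K₀) (x : K₀) :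
    ldv A (C x : MvPolynomial (Fin n × Fin n) K₀) = 0 := (ldv A).map_algebraMap x

theorem tk_tenEq {a b : ℕ} (t : Matrix (Fin a → Fin n) (Fin b → Fin n) K₀)
    (A : Matrix (Fin n) (Fin n) K₀) (i : Fin a → Fin n) (j : Fin b → Fin n) :
    ev (1 : Matrix (Fin n) (Fin n) K₀) (ldv A (tenEq t i j)) =
      (dtp a A * t - t * dtp b A) i j := by
  unfold tenEq
  rw [map_sub, map_sum, map_sum, map_sub, map_sum, map_sum, Matrix.sub_apply, Matrix.mul_apply,
    Matrix.mul_apply]
  congr 1
  · refine Finset.sum_congr rfl fun i' _ => ?_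
    rw [Derivation.leibniz, tk_ldv_C, smul_zero, zero_add, smul_eq_mul, map_mul, ev_C,
      tk_ldv_prod, Algebra.algebraMap_self_apply, mul_comm]
  · refine Finset.sum_congr rfl fun j' _ => ?_
    rw [Derivation.leibniz, tk_ldv_C, smul_zero, add_zero, smul_eq_mul, map_mul, ev_C,
      tk_ldv_prod, Algebra.algebraMap_self_apply]

end

theorem st_TK : ST_TK := by
  intro F _ _ S n w h M l _ a b t ht A hA
  obtain ⟨H, hH, hfix⟩ := ht
  have hA' : A ∈ LieZ (H.map (M.ρ l)) := by
    have := hA
    unfold glie at this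
    rw [Submodule.mem_iInf] at this
    have h1 := this H
    rw [Submodule.mem_iInf] at h1
    exact h1 hH
  unfold Kill
  rw [← sub_eq_zero]
  ext i j
  rw [← tk_tenEq, ev_one_ldv, Matrix.zero_apply]
  refine hA' _ ?_
  rintro x ⟨g, hg, rfl⟩
  have h1 := (act_fix_iff _ _).1 (hfix g hg)
  rw [ev_tenEq]
  have h2 : (Matrix.of t : Matrix (Fin a → Fin n) (Fin b → Fin n) ℚ_[l]).map
      (algebraMap ℚ_[l] ℚ_[l]) = Matrix.of t := by
    ext p q
    simp
  rw [h2, h1, sub_self, Matrix.zero_apply]

end HG
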